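import Pool.Agent.Helper17.DT.Def
import Pool.Agent.Helper7.NS.T2
import Pool.Agent.Helper22.DT.O1

/-!
# Swarm DT, part O2: the symplectic form in the two charts
-/

set_option autoImplicit false
set_option linter.unusedSectionVars false
set_option linter.unusedVariables false

open Polynomial Finset DirectSum

namespace Pool.Agent.Helper27.DT

open Pool.Agent.Helper766_CF Pool.Agent.Helper766_CG Pool.Agent.Helper766_CH
open Pool.Agent.Helper58.CS Pool.Agent.Helper58.OP Pool.Agent.Helper58.SH Pool.Agent.Helper58.BG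
open Pool.Agent.Helper58.LC Pool.Agent.Helper58.NS Pool.Agent.Helper17.DT
open Pool.Agent.Helper7.NS (coeff_mul_T coeff_toL coeff_toL_neg iota iota_apply)

section laurent

variable {k : Type} [Field k] [Algebra ℂ k]

lemma rev_laurent {p q : k[X]} {d : ℕ} (hp : p.natDegree ≤ d) (hq : q.natDegree ≤ d)
    (h : ∀ i j, i + j = d → p.coeff i = q.coeff j) :
    toLaurent p = iota k q * LaurentPolynomial.T (d : ℤ) := by
  ext i
  rw [coeff_mul_T, iota_apply, LaurentPolynomial.invert_apply]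
  rcases lt_or_ge i 0 with hi | hi
  · rw [coeff_toL_neg _ _ hi]
    obtain ⟨n, hn⟩ : ∃ n : ℕ, -(i - (d : ℤ)) = n := ⟨(-(i - (d : ℤ))).toNat, by omega⟩
    rw [hn, coeff_toL]
    symm
    apply coeff_eq_zero_of_natDegree_lt
    omega
  · obtain ⟨n, rfl⟩ : ∃ n : ℕ, i = n := ⟨i.toNat, by omega⟩
    rw [coeff_toL]
    rcases le_or_gt n d with hn | hn
    · have e : -((n : ℤ) - (d : ℤ)) = ((d - n : ℕ) : ℤ) := by omega
      rw [e, coeff_toL]
      exact h _ _ (by omega)
    · rw [coeff_toL_neg _ _ (by omega)]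
      apply coeff_eq_zero_of_natDegree_lt
      omega

lemma laurent_final {P Q : k[X]} (h : toLaurent P = iota k Q * LaurentPolynomial.T (1 : ℤ)) :
    Q.natDegree ≤ 1 ∧ Q.coeff 1 = P.coeff 0 ∧ Q.coeff 0 = P.coeff 1 := by
  have key : ∀ i : ℤ, (toLaurent P).coeff i = (toLaurent Q).coeff (1 - i) := by
    intro i
    rw [h, coeff_mul_T, iota_apply, LaurentPolynomial.invert_apply]
    congr 1
    ring
  refine ⟨?_, ?_, ?_⟩
  · rw [natDegree_le_iff_coeff_eq_zero]
    intro n hn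
    rw [← coeff_toL, ← coeff_toL_neg P (1 - (n : ℤ)) (by omega), key]
    congr 1
    ring
  · rw [← coeff_toL, ← coeff_toL P, key]
    congr 1
  · rw [← coeff_toL, ← coeff_toL P, key]
    congr 1

end laurent

variable {R : Type} [CommRing R] [Algebra ℂ R] {𝒜 : ℕ → Submodule ℂ R} [GradedAlgebra 𝒜]
  {br : R →ₗ[ℂ] R →ₗ[ℂ] R} {k : Type} [Field k] [Algebra ℂ k]

section lists

variable {T : Type} [CommRing T] [Algebra ℂ T]

lemma hv_nil (x : R →ₐ[ℂ] T) (r : R) : hv br x [] r = 0 := rfl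

lemma hv_cons (x : R →ₐ[ℂ] T) (q : R × T) (L : List (R × T)) (r : R) :
    hv br x (q :: L) r = q.2 * x (br q.1 r) + hv br x L r := by
  simp [hv]

lemma hv_append' (x : R →ₐ[ℂ] T) (L L' : List (R × T)) (r : R) :
    hv br x (L ++ L') r = hv br x L r + hv br x L' r := by
  simp [hv]

lemma hv_addr (x : R →ₐ[ℂ] T) (L : List (R × T)) (r s : R) :
    hv br x L (r + s) = hv br x L r + hv br x L s := by
  induction L with
  | nil => simp [hv]
  | cons q L ih => rw [hv_cons, hv_cons, hv_cons, ih, map_add, map_add]; ring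

lemma hv_zeror (x : R →ₐ[ℂ] T) (L : List (R × T)) : hv br x L 0 = 0 := by
  induction L with
  | nil => rfl
  | cons q L ih => rw [hv_cons, ih, map_zero, map_zero]; ring

lemma om_nil' (V : R →ₗ[ℂ] T) : om V [] = 0 := rfl

lemma om_cons' (V : R →ₗ[ℂ] T) (q : R × T) (L : List (R × T)) :
    om V (q :: L) = q.2 * V q.1 + om V L := by
  simp [om]

lemma om_append' (V : R →ₗ[ℂ] T) (L L' : List (R × T)) :
    om V (L ++ L') = om V L + om V L' := by
  simp [om]

end lists

lemma en_comp' {S S' : Type} [CommRing S] [Algebra ℂ S] [CommRing S'] [Algebra ℂ S']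
    (π : S →ₐ[ℂ] S') {y : R →ₐ[ℂ] S} (h : EN 𝒜 y) : EN 𝒜 (π.comp y) := by
  rw [EN] at h ⊢
  have h1 : (1 : S) ∈ Ideal.span {t : S | ∃ k : ℕ, 0 < k ∧ ∃ a ∈ 𝒜 k, y a = t} := by
    rw [h]; trivial
  have h2 := Ideal.mem_map_of_mem (π : S →+* S') h1
  rw [Ideal.map_span, map_one] at h2
  rw [Ideal.eq_top_iff_one]
  refine Ideal.span_mono ?_ h2
  rintro _ ⟨t, ⟨j, hj, a, ha, rfl⟩, rfl⟩
  exact ⟨j, hj, a, ha, rfl⟩

/-- `toLaurent` as an algebra homomorphism. -/
noncomputable def tl (k : Type) [Field k] [Algebra ℂ k] : k[X] →ₐ[ℂ] LaurentPolynomial k :=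
  toLaurentAlg.restrictScalars ℂ

lemma tl_apply (p : k[X]) : tl k p = toLaurent p := rfl

lemma br_zero (C : Core 𝒜 br) {h r : R} (hh : h ∈ 𝒜 0) (hr : r ∈ 𝒜 0) : br h r = 0 := by
  obtain ⟨c, rfl⟩ := C.const r hr
  have h1 := C.poisson.leibniz h 1 1
  rw [mul_one, one_mul] at h1
  rw [Algebra.algebraMap_eq_smul_one, map_smul]
  have h2 : br h 1 = 0 := by
    exact left_eq_add.1 h1
  rw [h2, smul_zero]

/-- The list of a single element. -/
lemma single (C : Core 𝒜 br) {f g : R →ₐ[ℂ] k[X]} (hfg : Rev 𝒜 f g)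
    (hf : ∀ d, ∀ a ∈ 𝒜 d, (f a).natDegree ≤ d) (hg : ∀ d, ∀ a ∈ 𝒜 d, (g a).natDegree ≤ d)
    {V V' : R →ₗ[ℂ] k[X]} (hV : Sec 𝒜 f V) (hV' : Sec 𝒜 g V') (h1 : Rev 𝒜 V V') (p : k[X])
    (h : R) : ∃ M : List (R × LaurentPolynomial k),
      (∀ d, ∀ r ∈ 𝒜 d, hv br ((tl k).comp f) M r =
        iota k (p * g (br h r)) * LaurentPolynomial.T (d : ℤ)) ∧
      om ((tl k).toLinearMap.comp V) M = iota k (p * V' h) * LaurentPolynomial.T (1 : ℤ) := by
  refine hom_induction 𝒜 (P := fun h => ∃ M : List (R × LaurentPolynomial k),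
      (∀ d, ∀ r ∈ 𝒜 d, hv br ((tl k).comp f) M r =
        iota k (p * g (br h r)) * LaurentPolynomial.T (d : ℤ)) ∧
      om ((tl k).toLinearMap.comp V) M = iota k (p * V' h) * LaurentPolynomial.T (1 : ℤ)) h
      ?_ ?_ ?_
  · refine ⟨[], fun d r _ => ?_, ?_⟩
    · rw [hv_nil, map_zero, LinearMap.zero_apply, map_zero, mul_zero, map_zero, zero_mul]
    · rw [om_nil', map_zero, mul_zero, map_zero, zero_mul]
  · intro e h hh
    refine ⟨[(h, iota k p * LaurentPolynomial.T (1 - (e : ℤ)))], fun d r hr => ?_, ?_⟩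
    · rw [hv_cons, hv_nil, add_zero]
      change iota k p * LaurentPolynomial.T (1 - (e : ℤ)) * toLaurent (f (br h r)) = _
      rcases Nat.eq_zero_or_pos (e + d) with h0 | h0
      · obtain ⟨rfl, rfl⟩ : e = 0 ∧ d = 0 := by omega
        rw [br_zero C hh hr, map_zero, map_zero, mul_zero, map_zero, mul_zero, map_zero, zero_mul]
      · have hb : br h r ∈ 𝒜 (e + d - 1) := C.degree e d h hh r hr (e + d - 1) (by omega)
        rw [rev_laurent (hf _ _ hb) (hg _ _ hb) (hfg _ _ hb), map_mul, mul_assoc, mul_assoc,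
          mul_comm (LaurentPolynomial.T (1 - (e : ℤ))), mul_assoc, ← LaurentPolynomial.T_add]
        congr 3
        omega
    · rw [om_cons', om_nil', add_zero]
      change iota k p * LaurentPolynomial.T (1 - (e : ℤ)) * toLaurent (V h) = _
      rw [rev_laurent (hV.deg _ _ hh) (hV'.deg _ _ hh) (h1 _ _ hh), map_mul, mul_assoc, mul_assoc,
        mul_comm (LaurentPolynomial.T (1 - (e : ℤ))), mul_assoc, ← LaurentPolynomial.T_add]
      congr 3
      omega
  · rintro a b ⟨M, hM1, hM2⟩ ⟨M', hM1', hM2'⟩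
    refine ⟨M ++ M', fun d r hr => ?_, ?_⟩
    · rw [hv_append', hM1 d r hr, hM1' d r hr, map_add br, LinearMap.add_apply, map_add g, mul_add,
        map_add, add_mul]
    · rw [om_append', hM2, hM2', map_add V', mul_add, map_add, add_mul]

/-- The list in the other chart. -/
lemma other (C : Core 𝒜 br) {f g : R →ₐ[ℂ] k[X]} (hfg : Rev 𝒜 f g)
    (hf : ∀ d, ∀ a ∈ 𝒜 d, (f a).natDegree ≤ d) (hg : ∀ d, ∀ a ∈ 𝒜 d, (g a).natDegree ≤ d)
    {V V' : R →ₗ[ℂ] k[X]} (hV : Sec 𝒜 f V) (hV' : Sec 𝒜 g V') (h1 : Rev 𝒜 V V')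
    (L' : List (R × k[X])) : ∃ M : List (R × LaurentPolynomial k),
      (∀ d, ∀ r ∈ 𝒜 d, hv br ((tl k).comp f) M r =
        iota k (hv br g L' r) * LaurentPolynomial.T (d : ℤ)) ∧
      om ((tl k).toLinearMap.comp V) M = iota k (om V' L') * LaurentPolynomial.T (1 : ℤ) := by
  induction L' with
  | nil =>
    refine ⟨[], fun d r _ => ?_, ?_⟩
    · rw [hv_nil, hv_nil, map_zero, zero_mul]
    · rw [om_nil', om_nil', map_zero, zero_mul]
  | cons q L' ih =>
    obtain ⟨M, hM1, hM2⟩ := ih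
    obtain ⟨M', hM1', hM2'⟩ := single C hfg hf hg hV hV' h1 q.2 q.1
    refine ⟨M' ++ M, fun d r hr => ?_, ?_⟩
    · rw [hv_append', hM1 d r hr, hM1' d r hr, hv_cons, map_add, add_mul]
    · rw [om_append', hM2, hM2', om_cons', map_add, add_mul]

/-- O2. The symplectic form in the two charts. -/
theorem om_rev (C : Core 𝒜 br) {f g : R →ₐ[ℂ] k[X]} (hfg : Rev 𝒜 f g) (hf : IsCurve 𝒜 k 1 f)
    (hg : IsCurve 𝒜 k 1 g) (hen : EN 𝒜 f) (hen' : EN 𝒜 g) {V V' W W' : R →ₗ[ℂ] k[X]}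
    (hV : Sec 𝒜 f V) (hV' : Sec 𝒜 g V') (hW : Sec 𝒜 f W) (hW' : Sec 𝒜 g W')
    (h1 : Rev 𝒜 V V') (h2 : Rev 𝒜 W W') {L L' : List (R × k[X])} (hL : ∀ r, W r = hv br f L r)
    (hL' : ∀ r, W' r = hv br g L' r) : (om V' L').natDegree ≤ 1 ∧
      (om V' L').coeff 1 = (om V L).coeff 0 ∧ (om V' L').coeff 0 = (om V L).coeff 1 := by
  have hfd : ∀ d, ∀ a ∈ 𝒜 d, (f a).natDegree ≤ d := by
    intro d a ha
    have := hf.deg d a ha
    rwa [one_mul] at this
  have hgd : ∀ d, ∀ a ∈ 𝒜 d, (g a).natDegree ≤ d := by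
    intro d a ha
    have := hg.deg d a ha
    rwa [one_mul] at this
  obtain ⟨M, hM1, hM2⟩ := other C hfg hfd hgd hV hV' h1 L'
  set x : R →ₐ[ℂ] LaurentPolynomial k := (tl k).comp f with hx
  set VL : R →ₗ[ℂ] LaurentPolynomial k := (tl k).toLinearMap.comp V with hVL
  have hder : IsDer x VL := ⟨fun a b => by
    change tl k (V (a * b)) = tl k (f a) * tl k (V b) + tl k (f b) * tl k (V a)
    rw [hV.der.mul, map_add, map_mul, map_mul]⟩
  have hneg : ∀ L : List (R × k[X]),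
      (∀ r, hv br x (L.map fun q => (q.1, -tl k q.2)) r = -tl k (hv br f L r)) ∧
      om VL (L.map fun q => (q.1, -tl k q.2)) = -tl k (om V L) := by
    intro L
    induction L with
    | nil =>
      refine ⟨fun r => ?_, ?_⟩
      · rw [List.map_nil, hv_nil, hv_nil, map_zero, neg_zero]
      · rw [List.map_nil, om_nil', om_nil', map_zero, neg_zero]
    | cons q L ih =>
      refine ⟨fun r => ?_, ?_⟩
      · rw [List.map_cons, hv_cons, ih.1, hv_cons, map_add, map_mul]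
        change -tl k q.2 * tl k (f (br q.1 r)) + _ = _
        ring
      · rw [List.map_cons, om_cons', ih.2, om_cons', map_add, map_mul]
        change -tl k q.2 * tl k (V q.1) + _ = _
        ring
  have hzero : ∀ r, hv br x (M ++ L.map fun q => (q.1, -tl k q.2)) r = 0 := by
    intro r
    refine hom_induction 𝒜
      (P := fun r => hv br x (M ++ L.map fun q => (q.1, -tl k q.2)) r = 0) r ?_ ?_ ?_
    · exact hv_zeror _ _
    · intro d a ha
      rw [hv_append', hM1 d a ha, (hneg L).1, ← hL', ← hL, tl_apply,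
        rev_laurent (hW.deg d a ha) (hW'.deg d a ha) (h2 d a ha)]
      ring
    · intro a b ha hb
      rw [hv_addr, ha, hb, add_zero]
  have h3 := Pool.Agent.Helper22.DT.om_zero C (en_comp' (tl k) hen) hder hzero
  rw [om_append', hM2, (hneg L).2] at h3
  apply laurent_final
  rw [← tl_apply]
  exact (add_neg_eq_zero.1 h3).symm

end Pool.Agent.Helper27.DT
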